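import Mathlib
import Pool.Agent.H98.Spacing

set_option autoImplicit false

namespace Pool.Agent.Results.MP_8a65de_an.NotOmega

open Set Filter Topology Pool.Agent.H98.Spacing

/-- the set of hitting times `N_T(U,V)`. -/
def hit {X : Type} (T : X → X) (U V : Set X) : Set ℕ := {n | (U ∩ T^[n] ⁻¹' V).Nonempty}

/-- weak mixing: the product system is topologically transitive. -/
def WeakMix {X : Type} [TopologicalSpace X] (T : X → X) : Prop :=
  ∀ W₁ W₂ : Set (X × X), IsOpen W₁ → IsOpen W₂ → W₁.Nonempty → W₂.Nonempty →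
    (hit (Prod.map T T) W₁ W₂).Nonempty

/-- the family of all sets containing some `N_T(U,V)` with `U`, `V` open and nonempty. -/
def fam {X : Type} [TopologicalSpace X] (T : X → X) : Set (Set ℕ) :=
  {A | ∃ U V : Set X, IsOpen U ∧ IsOpen V ∧ U.Nonempty ∧ V.Nonempty ∧ hit T U V ⊆ A}

/-- the omega-limit set along the family. -/
def omegaN {X : Type} [TopologicalSpace X] (T : X → X) (x : X) : Set X :=
  ⋂ F ∈ fam T, closure ((fun i => T^[i] x) '' F)

/-- the usual omega-limit set. -/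
def omega {X : Type} [TopologicalSpace X] (T : X → X) (y : X) : Set X :=
  ⋂ n ∈ Ici 1, closure ((fun k => T^[k] y) '' Ici n)

def w (i : ℕ) : Bool := decide (Nat.sqrt i % 2 = 1)

def P0 : Set ℕ := {i | w (i - 1) = w i}

abbrev X0 : Type := SP P0 × SP univ

def T0 : X0 → X0 := Prod.map sh sh

lemma T0_iter (n : ℕ) (x : X0) : T0^[n] x = (sh^[n] x.1, sh^[n] x.2) := by
  rw [T0, Prod.map_iterate]; rfl

lemma T0_cont : Continuous T0 := sh_cont.prodMap sh_cont

lemma runs (b : Bool) (m : ℕ) : ∃ n, Deep P0 m n ∧ ∀ i < m, w (i + n) = b := by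
  obtain ⟨k, hk, hb⟩ : ∃ k, m + 1 ≤ k ∧ decide (k % 2 = 1) = b := by
    cases b
    · exact ⟨2 * (m + 1), by omega, by simp⟩
    · exact ⟨2 * (m + 1) + 1, by omega, by simp⟩
  have hw : ∀ d, k * k ≤ d → d ≤ k * k + 2 * k → w d = b := by
    intro d h1 h2
    have : Nat.sqrt d = k := by
      symm; rw [Nat.eq_sqrt]; constructor
      · exact h1
      · nlinarith
    rw [w, this, hb]
  refine ⟨k * k + k, ⟨by omega, fun d h1 h2 => ?_⟩, fun i hi => hw _ (by omega) (by omega)⟩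
  change w (d - 1) = w d
  rw [hw d (by omega) (by omega), hw (d - 1) (by omega) (by omega)]

lemma deep_univ {m n : ℕ} (h : Deep P0 m n) : Deep univ m n := ⟨h.1, fun _ _ _ => trivial⟩

lemma join0 {m n : ℕ} (h : Deep P0 m n) (a b : X0) : ∃ z : X0,
    ((∀ i < m, z.1.1 i = a.1.1 i) ∧ ∀ i < m, z.2.1 i = a.2.1 i) ∧
    (∀ i < m, (T0^[n] z).1.1 i = b.1.1 i) ∧ ∀ i < m, (T0^[n] z).2.1 i = b.2.1 i := by
  obtain ⟨z1, p1, q1⟩ := join h a.1 b.1
  obtain ⟨z2, p2, q2⟩ := join (deep_univ h) a.2 b.2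
  refine ⟨(z1, z2), ⟨p1, p2⟩, ?_⟩
  rw [T0_iter]
  exact ⟨q1, q2⟩

lemma cyl4 {U : Set (X0 × X0)} {x : X0 × X0} (hU : U ∈ 𝓝 x) :
    ∃ m, ∀ y : X0 × X0, ((∀ i < m, y.1.1.1 i = x.1.1.1 i) ∧ ∀ i < m, y.1.2.1 i = x.1.2.1 i) →
      ((∀ i < m, y.2.1.1 i = x.2.1.1 i) ∧ ∀ i < m, y.2.2.1 i = x.2.2.1 i) → y ∈ U := by
  obtain ⟨A, hA, B, hB, h⟩ := mem_nhds_prod_iff.1 hU
  obtain ⟨m1, h1⟩ := cyl2 hA
  obtain ⟨m2, h2⟩ := cyl2 hB
  exact ⟨max m1 m2, fun y hy1 hy2 => h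
    ⟨h1 _ (fun i hi => hy1.1 i (lt_max_of_lt_left hi)) fun i hi => hy1.2 i (lt_max_of_lt_left hi),
    h2 _ (fun i hi => hy2.1 i (lt_max_of_lt_right hi))
      fun i hi => hy2.2 i (lt_max_of_lt_right hi)⟩⟩

def x0 : X0 := (zero P0, ⟨w, fun _ _ _ _ _ => trivial⟩)

def fx (b : Bool) : X0 := (zero P0, ⟨fun _ => b, fun _ _ _ _ _ => trivial⟩)

lemma fx_mem (b : Bool) : fx b ∈ omegaN T0 x0 := by
  refine mem_iInter₂.2 ?_
  rintro F ⟨U, V, hU, hV, ⟨a, ha⟩, ⟨c, hc⟩, hF⟩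
  rw [mem_closure_iff_nhds]
  intro G hG
  obtain ⟨m1, h1⟩ := cyl2 (hU.mem_nhds ha)
  obtain ⟨m2, h2⟩ := cyl2 (hV.mem_nhds hc)
  obtain ⟨m3, h3⟩ := cyl2 hG
  obtain ⟨n, hn, hb⟩ := runs b (m1 + m2 + m3)
  obtain ⟨z, ⟨p1, p2⟩, q1, q2⟩ := join0 hn a c
  refine ⟨T0^[n] x0, h3 _ (fun i _ => ?_) (fun i hi => ?_), n, hF ⟨z,
    h1 _ (fun i hi => p1 i (by omega)) (fun i hi => p2 i (by omega)),
    h2 _ (fun i hi => q1 i (by omega)) (fun i hi => q2 i (by omega))⟩, rfl⟩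
  · rw [T0_iter, sh_iter]; rfl
  · rw [T0_iter, sh_iter]; exact hb i (by omega)

lemma const_of_mem {z : X0} (hz : z ∈ omegaN T0 x0) : z.2.1 0 = z.2.1 1 := by
  have hF : {n | n + 1 ∈ P0} ∈ fam T0 := by
    refine ⟨{p | p.1.1 0 = true}, {p | p.1.1 1 = true},
      (coord_open 0 true).preimage continuous_fst, (coord_open 1 true).preimage continuous_fst,
      ⟨(one _ 0, zero _), one_self 0⟩, ⟨(one _ 1, zero _), one_self 1⟩, ?_⟩
    rintro n ⟨p, h1, h2⟩
    have h3 : (T0^[n] p).1.1 1 = true := h2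
    rw [T0_iter, sh_iter] at h3
    have := p.1.2 0 (1 + n) (by omega) h1 h3
    rwa [Nat.sub_zero, add_comm] at this
  have hc : IsClosed {p : X0 | p.2.1 0 = p.2.1 1} :=
    isClosed_eq ((coord_cont 0).comp continuous_snd) ((coord_cont 1).comp continuous_snd)
  refine closure_minimal ?_ hc (mem_iInter₂.1 hz _ hF)
  rintro _ ⟨n, hn, rfl⟩
  change (T0^[n] x0).2.1 0 = (T0^[n] x0).2.1 1
  rw [T0_iter, sh_iter, sh_iter]
  have : w (n + 1 - 1) = w (n + 1) := hn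
  rw [Nat.add_sub_cancel] at this
  change w (0 + n) = w (1 + n)
  rw [zero_add, add_comm, this]

theorem result : ∃ (X : Type) (_ : MetricSpace X) (_ : CompactSpace X) (T : X → X),
    Nontrivial X ∧ (∀ x : X, ¬ IsOpen {x}) ∧ Continuous T ∧ Function.Surjective T ∧
    WeakMix T ∧ ∃ x, ∀ y, omega T y ≠ omegaN T x := by
  refine ⟨X0, TopologicalSpace.metrizableSpaceMetric X0, (inferInstance : CompactSpace X0), T0,
    ⟨fx true, fx false, fun h => ?_⟩, fun x hx => ?_, T0_cont, sh_surj.prodMap sh_surj,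
    ?_, x0, fun y hy => ?_⟩
  · have : (fx true).2.1 0 = (fx false).2.1 0 := by rw [h]
    simp [fx] at this
  · obtain ⟨m, hm⟩ := cyl2 (hx.mem_nhds (mem_singleton x))
    have := hm (x.1, ⟨Function.update x.2.1 m (!x.2.1 m), fun _ _ _ _ _ => trivial⟩)
      (fun _ _ => rfl) (fun i hi => Function.update_of_ne hi.ne _ _)
    have h2 := congrArg (fun p : X0 => p.2.1 m) (mem_singleton_iff.1 this)
    simp at h2
  · rintro W1 W2 h1 h2 ⟨a, ha⟩ ⟨b, hb⟩
    obtain ⟨m1, hm1⟩ := cyl4 (h1.mem_nhds ha)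
    obtain ⟨m2, hm2⟩ := cyl4 (h2.mem_nhds hb)
    obtain ⟨n, hn, -⟩ := runs true (m1 + m2)
    obtain ⟨z1, ⟨p1, p2⟩, q1, q2⟩ := join0 hn a.1 b.1
    obtain ⟨z2, ⟨r1, r2⟩, s1, s2⟩ := join0 hn a.2 b.2
    refine ⟨n, (z1, z2), hm1 _ ⟨fun i hi => p1 i (by omega), fun i hi => p2 i (by omega)⟩
      ⟨fun i hi => r1 i (by omega), fun i hi => r2 i (by omega)⟩, ?_⟩
    rw [mem_preimage, Prod.map_iterate]
    exact hm2 _ ⟨fun i hi => q1 i (by omega), fun i hi => q2 i (by omega)⟩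
      ⟨fun i hi => s1 i (by omega), fun i hi => s2 i (by omega)⟩
  · have hfr : ∀ (b : Bool) (n : ℕ), ∃ k, n ≤ k ∧ y.2.1 k = b := by
      intro b n
      have h1 := fx_mem b
      rw [← hy] at h1
      have h2 := mem_iInter₂.1 h1 (n + 1) (by simp)
      obtain ⟨_, h3, k, hk, rfl⟩ := mem_closure_iff.1 h2 {p : X0 | p.2.1 0 = b}
        ((coord_open 0 b).preimage continuous_snd) rfl
      have h4 : (T0^[k] y).2.1 0 = b := h3
      rw [T0_iter, sh_iter, zero_add] at h4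
      exact ⟨k, by have : n + 1 ≤ k := hk
                   omega, h4⟩
    have hch : ∀ n, ∃ k, n ≤ k ∧ y.2.1 k ≠ y.2.1 (k + 1) := by
      intro n
      by_contra hc
      push Not at hc
      have h1 : ∀ j, y.2.1 (n + j) = y.2.1 n := by
        intro j
        induction j with
        | zero => rfl
        | succ j ih => rw [← ih]; exact (hc (n + j) (by omega)).symm
      obtain ⟨k, hk, hb⟩ := hfr (!y.2.1 n) n
      obtain ⟨j, rfl⟩ := Nat.exists_eq_add_of_le hk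
      rw [h1] at hb
      simp at hb
    let C : Set X0 := {p | p.2.1 0 ≠ p.2.1 1}
    have hC : IsClosed C := by
      have : C = (fun p : X0 => (p.2.1 0, p.2.1 1)) ⁻¹' {q | q.1 ≠ q.2} := rfl
      rw [this]
      exact (isClosed_discrete _).preimage
        (((coord_cont 0).comp continuous_snd).prodMk ((coord_cont 1).comp continuous_snd))
    obtain ⟨z, hz⟩ := IsCompact.nonempty_iInter_of_sequence_nonempty_isCompact_isClosed
      (fun n => closure ((fun k => T0^[k] y) '' Ici n) ∩ C)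
      (fun n => inter_subset_inter_left _ (closure_mono (image_mono (Ici_subset_Ici.2 (by omega)))))
      (fun n => by
        obtain ⟨k, hk, h⟩ := hch n
        refine ⟨T0^[k] y, subset_closure ⟨k, hk, rfl⟩, ?_⟩
        change (T0^[k] y).2.1 0 ≠ (T0^[k] y).2.1 1
        rw [T0_iter, sh_iter, sh_iter, zero_add, add_comm]
        exact h)
      (isClosed_closure.inter hC).isCompact (fun n => isClosed_closure.inter hC)
    rw [mem_iInter] at hz
    have h1 : z ∈ omega T0 y := mem_iInter₂.2 fun n _ => (hz n).1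
    rw [hy] at h1
    exact (hz 0).2 (const_of_mem h1)

end Pool.Agent.Results.MP_8a65de_an.NotOmega
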